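import Mathlib
import Pool.Agent.Helper948.Erode.Reg

/-!
# Iterated public announcements over finite models: definitions and statements (project PA)
-/

set_option autoImplicit false

namespace Pool.Agent.N585.PA

open Pool.Agent.Helper948.Erode

/-- Formulas with agents `A` and proposition letters `0, 1, 2, ...`. -/
inductive Form (A : Type) : Type
  | atom : ℕ → Form A
  | neg : Form A → Form A
  | and : Form A → Form A → Form A
  | K : A → Form A → Form A
  | C : {G : Finset A // G.Nonempty} → Form A → Form A
  | ann : Form A → Form A → Form A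
  | star : Form A → Form A → Form A

/-- Epistemic models: one equivalence relation for each agent, and a valuation. -/
structure Model (A W : Type) where
  r : A → Setoid W
  V : ℕ → W → Prop

/-- The worlds of `S` at which `s` is true (in the submodel on `S`). -/
def step {W : Type} (s : Set W → W → Prop) (S : Set W) : Set W := {v | v ∈ S ∧ s S v}

/-- `sat M φ S w`: `φ` is true at the world `w` of the submodel of `M` on the set `S`. -/
def sat {A W : Type} (M : Model A W) : Form A → Set W → W → Prop
  | .atom n, _, w => M.V n w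
  | .neg φ, S, w => ¬ sat M φ S w
  | .and φ ψ, S, w => sat M φ S w ∧ sat M ψ S w
  | .K a φ, S, w => ∀ v, v ∈ S → (M.r a) w v → sat M φ S v
  | .C G φ, S, w => ∀ v, Relation.TransGen
      (fun x y => x ∈ S ∧ y ∈ S ∧ ∃ a ∈ G.1, (M.r a) x y) w v → sat M φ S v
  | .ann φ ψ, S, w => sat M φ S w → sat M ψ (step (sat M φ) S) w
  | .star φ ψ, S, w => ∀ n : ℕ, w ∈ (step (sat M φ))^[n] S →
      sat M ψ ((step (sat M φ))^[n] S) w

/-- Truth at all worlds of all finite epistemic models. -/
def FinValid {A : Type} (φ : Form A) : Prop :=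
  ∀ (W : Type) [Finite W] (M : Model A W) (w : W), sat M φ Set.univ w

/-- Goedel numbers of the formulas with `k` agents. -/
def code {k : ℕ} : Form (Fin k) → ℕ
  | .atom n => Nat.pair 0 n
  | .neg φ => Nat.pair 1 (code φ)
  | .and φ ψ => Nat.pair 2 (Nat.pair (code φ) (code ψ))
  | .K a φ => Nat.pair 3 (Nat.pair a (code φ))
  | .C G φ => Nat.pair 4 (Nat.pair (Encodable.encode G.1) (code φ))
  | .ann φ ψ => Nat.pair 5 (Nat.pair (code φ) (code ψ))
  | .star φ ψ => Nat.pair 6 (Nat.pair (code φ) (code ψ))

/-! ## The reduction -/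

/-- The letters that are used: `vx` (vertices; the other worlds are links), `cfg` (configurations),
`st q` (the state is `q`), `ch j` (vertices of the chains of register `j`). -/
inductive Lt (P : Type) : Type
  | vx : Lt P
  | cfg : Lt P
  | st : Option P → Lt P
  | ch : Bool × Bool → Lt P

section

variable {A P : Type} (a b : A) (e : Lt P → ℕ)

/-- a letter as a formula -/
def at' (l : Lt P) : Form A := .atom (e l)

/-- truth -/
def tt : Form A := .neg (.and (.atom 0) (.neg (.atom 0)))

/-- implication -/
def imp (φ ψ : Form A) : Form A := .neg (.and φ (.neg ψ))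

/-- finite conjunctions -/
def conj : List (Form A) → Form A
  | [] => tt
  | φ :: l => .and φ (conj l)

/-- There is a link in the `a`-class and a vertex in its `b`-class at which `χ` is true. -/
def dia (χ : Form A) : Form A :=
  .neg (.K a (.neg (.and (.neg (at' e .vx)) (.neg (.K b (.neg (.and (at' e .vx) χ)))))))

/-- the dual of `dia` -/
def box (χ : Form A) : Form A := .neg (dia a b e (.neg χ))

/-- there is a chain of at least `m` vertices with letter `ch j` -/
def ge (j : Bool × Bool) : ℕ → Form A
  | 0 => tt
  | m + 1 => dia a b e (.and (at' e (.ch j)) (ge j m))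

/-- the announcement which removes the last vertices with letter `l` -/
def peel (l : Lt P) : Form A := imp (at' e .vx) (imp (at' e l) (dia a b e (at' e l)))

/-- comparison of the chains of a configuration and of the next one -/
def dyn (s t : ℕ) (j : Bool × Bool) : Form A :=
  .and (imp (ge a b e j (s + 1)) (box a b e (imp (at' e .cfg) (ge a b e j (t + 1)))))
    (imp (.neg (ge a b e j (s + 1)))
      (box a b e (imp (at' e .cfg) (.neg (ge a b e j (t + 1))))))

/-- register `j` changes by `d` -/
def chg (d : ℤ) (j : Bool × Bool) : Form A :=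
  .and (box a b e (imp (at' e .cfg) (ge a b e j d.toNat)))
    (.star (peel a b e (.ch j)) (dyn a b e (-d).toNat d.toNat j))

/-- the four registers -/
def regs : List (Bool × Bool) := [(false, false), (false, true), (true, false), (true, true)]

variable (D : DM P (Bool × Bool))

/-- what happens in the branch `β` of state `p` -/
def brf (p : P) (β : Bool) : Form A :=
  .and (box a b e (imp (at' e .cfg) (at' e (.st (D.nxt p β)))))
    (conj (regs.map fun j => chg a b e (D.vec p β j) j))

/-- the transition in state `p` -/
def tr (p : P) : Form A :=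
  imp (at' e (.st (some p))) (.and (dia a b e (at' e .cfg))
    (.and (imp (ge a b e (D.reg p) 1) (brf a b e D p true))
      (imp (.neg (ge a b e (D.reg p) 1)) (brf a b e D p false))))

/-- configurations are not chain vertices -/
def excl : Form A := conj (regs.map fun j => .neg (at' e (.ch j)))

variable [DecidableEq A]

/-- the global condition -/
def glob (Ps : List P) : Form A :=
  .C ⟨{a, b}, by simp⟩
    (imp (.and (at' e .vx) (at' e .cfg)) (.and (excl e) (conj (Ps.map (tr a b e D)))))

/-- the initial configuration -/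
def ini0 (N : ℕ) : Form A :=
  conj [.and (ge a b e (false, true) N) (.neg (ge a b e (false, true) (N + 1))),
    .neg (ge a b e (false, false) 1), .neg (ge a b e (true, false) 1),
    .neg (ge a b e (true, true) 1)]

/-- The formula describing a halting computation from `N`. -/
def root (Ps : List P) (p0 : P) (N : ℕ) : Form A :=
  conj [at' e .vx, at' e .cfg, at' e (.st (some p0)), ini0 a b e N,
    .neg (.star (peel a b e .cfg) (dia a b e (at' e .cfg))), glob a b e D Ps]

end

section

variable {A P W : Type} (M : Model A W) (a b : A) (e : Lt P → ℕ)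

/-- The edges between vertices. -/
def Ed (u v : W) : Prop :=
  ∃ l, (M.r a) u l ∧ ¬ M.V (e .vx) l ∧ (M.r b) l v ∧ M.V (e .vx) v

/-- paths with `n + 1` vertices with letter `l` -/
def Pt (l : Lt P) : ℕ → W → Prop
  | 0, w => M.V (e l) w
  | n + 1, w => M.V (e l) w ∧ ∃ v, Ed M a b e w v ∧ Pt l n v

/-- the worlds that are left after `n` announcements -/
def Sn (l : Lt P) (n : ℕ) : Set W := (step (sat M (peel a b e l)))^[n] Set.univ

end

/-! ## Statements -/

/-- (PA/1) A fixed register machine whose halting problem is complete for r.e. predicates. -/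
def StmMach : Prop :=
  ∃ (P : Type) (_ : Finite P) (D : DM P (Bool × Bool)) (p0 : P), ∀ p : ℕ → Prop, REPred p →
    ∃ N : ℕ → ℕ, Computable N ∧ ∀ n, p n ↔ D.Halts (some p0, v4 (N n) 0 0 0)

/-- (PA/2) Semantics of `dia`, of the announcements, and of `ge`. -/
def StmPeel : Prop :=
  ∀ (A W P : Type) (M : Model A W) (a b : A) (e : Lt P → ℕ),
    (∀ (χ : Form A) (S : Set W) (w : W), (∀ l, ¬ M.V (e .vx) l → l ∈ S) →
      (sat M (dia a b e χ) S w ↔ ∃ v, Ed M a b e w v ∧ v ∈ S ∧ sat M χ S v)) ∧
    (∀ (l : Lt P) (n : ℕ) (w : W), w ∈ Sn M a b e l n ↔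
      (M.V (e .vx) w → M.V (e l) w → Pt M a b e l n w)) ∧
    (∀ (j : Bool × Bool) (n m : ℕ) (w : W), sat M (ge a b e j (m + 1)) (Sn M a b e (.ch j) n) w ↔
      ∃ v, Ed M a b e w v ∧ Pt M a b e (.ch j) (n + m) v)

/-- (PA/3) Soundness. -/
def StmSound : Prop :=
  ∀ (A W P : Type) [DecidableEq A] (M : Model A W) (a b : A) (e : Lt P → ℕ)
    (D : DM P (Bool × Bool)) (Ps : List P) (p0 : P) (N : ℕ) (w : W), (∀ p, p ∈ Ps) →
    sat M (root a b e D Ps p0 N) Set.univ w → D.Halts (some p0, v4 N 0 0 0)

/-- (PA/4) Halting computations give finite models. -/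
def StmModel : Prop :=
  ∀ (A P : Type) [DecidableEq A] (a b : A) (e : Lt P → ℕ) (D : DM P (Bool × Bool)) (Ps : List P)
    (p0 : P) (N : ℕ), a ≠ b → Function.Injective e → D.Halts (some p0, v4 N 0 0 0) →
    ∃ (W : Type) (_ : Finite W) (M : Model A W) (w : W),
      sat M (root a b e D Ps p0 N) Set.univ w

/-- (PA/5) The reduction is computable. -/
def StmComp : Prop :=
  ∀ (k : ℕ) (P : Type) (a b : Fin k) (e : Lt P → ℕ) (D : DM P (Bool × Bool)) (Ps : List P)
    (p0 : P), Computable (fun N => code (Form.neg (root a b e D Ps p0 N)))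

/-- (PA/6) Goedel numbers are injective. -/
def StmCode : Prop := ∀ k : ℕ, Function.Injective (code (k := k))

/-- the letters of the formula are smaller than `m` -/
def Below {A : Type} (m : ℕ) : Form A → Prop
  | .atom n => n < m
  | .neg φ => Below m φ
  | .and φ ψ => Below m φ ∧ Below m ψ
  | .K _ φ => Below m φ
  | .C _ φ => Below m φ
  | .ann φ ψ => Below m φ ∧ Below m ψ
  | .star φ ψ => Below m φ ∧ Below m ψ

/-- The model whose worlds are the valuations in `T`, all of them indistinguishable. -/
def canon {A : Type} {m : ℕ} (T : Finset (Fin m → Bool)) : Model A ↥T where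
  r := fun _ => ⊤
  V := fun n x => ∃ h : n < m, x.1 ⟨n, h⟩ = true

/-- (PA/7) One agent: small models suffice. -/
def StmSmall : Prop :=
  ∀ (A : Type) [Unique A] (m : ℕ) (φ : Form A), Below m φ →
    (FinValid φ ↔ ∀ (T : Finset (Fin m → Bool)) (x : ↥T), sat (canon T) φ Set.univ x)

end Pool.Agent.N585.PA
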