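import Pool.Agent.N585.PA.Defs

/-!
# Iterated public announcements over finite models: assembly
-/

set_option autoImplicit false

namespace Pool.Agent.N585.PA

open Pool.Agent.Helper948.Erode

theorem exists_letters (P : Type) [Finite P] : ∃ e : Lt P → ℕ, Function.Injective e := by
  have : Countable (Lt P) := by
    have hs : Function.Surjective (fun x : Bool ⊕ Option P ⊕ (Bool × Bool) => match x with
      | .inl true => (Lt.vx : Lt P)
      | .inl false => .cfg
      | .inr (.inl q) => .st q
      | .inr (.inr j) => .ch j) := by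
      intro l
      cases l with
      | vx => exact ⟨.inl true, rfl⟩
      | cfg => exact ⟨.inl false, rfl⟩
      | st q => exact ⟨.inr (.inl q), rfl⟩
      | ch j => exact ⟨.inr (.inr j), rfl⟩
    exact hs.countable
  exact exists_injective_nat _

theorem hard (hMach : StmMach) (hSound : StmSound) (hModel : StmModel) (hComp : StmComp)
    (k : ℕ) (hk : 2 ≤ k) (p : ℕ → Prop) (hp : REPred p) :
    ∃ f : ℕ → Form (Fin k), Computable (fun n => code (f n)) ∧ ∀ n, p n ↔ ¬ FinValid (f n) := by
  classical
  obtain ⟨P, _, D, p0, hD⟩ := hMach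
  obtain ⟨e, he⟩ := exists_letters P
  obtain ⟨N, hN, hpN⟩ := hD p hp
  have : Fintype P := Fintype.ofFinite P
  let Ps : List P := Finset.univ.toList
  have hPs : ∀ q : P, q ∈ Ps := fun q => Finset.mem_toList.2 (Finset.mem_univ q)
  let a : Fin k := ⟨0, by omega⟩
  let b : Fin k := ⟨1, by omega⟩
  have hab : a ≠ b := by
    intro h
    have := congrArg Fin.val h
    simp [a, b] at this
  refine ⟨fun n => .neg (root a b e D Ps p0 (N n)), (hComp k P a b e D Ps p0).comp hN, fun n => ?_⟩
  rw [hpN n]
  constructor
  · intro h hv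
    obtain ⟨W, _, M, w, hw⟩ := hModel (Fin k) P a b e D Ps p0 (N n) hab he h
    exact hv W M w hw
  · intro h
    unfold FinValid at h
    push Not at h
    obtain ⟨W, _, M, w, hw⟩ := h
    have hw' : sat M (root a b e D Ps p0 (N n)) Set.univ w := not_not.1 hw
    exact hSound (Fin k) W P M a b e D Ps p0 (N n) w hPs hw'

end Pool.Agent.N585.PA
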